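import Pool.Agent.Helper44.BB.Stmts

set_option autoImplicit false

namespace Pool.Agent.Helper44.BB

open Finset

/-- the part of the sum over the large primes -/
theorem err_split (t : ℝ) (n : ℕ) : dl n = dl (sp t n) +
    ∑ q ∈ n.primeFactors.filter (fun q : ℕ => ¬ (q : ℝ) ≤ t), 1 / (q : ℝ) := by
  rw [dl_sp]
  unfold dl
  rw [sum_filter_add_sum_filter_not]

theorem err_tail (t M : ℝ) (n : ℕ) (ht : 1 ≤ t) (h : (n.primeFactors.card : ℝ) ≤ M) :
    ∑ q ∈ n.primeFactors.filter (fun q : ℕ => ¬ (q : ℝ) ≤ t), 1 / (q : ℝ) ≤ M / t := by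
  have ht0 : 0 < t := by linarith
  calc ∑ q ∈ n.primeFactors.filter (fun q : ℕ => ¬ (q : ℝ) ≤ t), 1 / (q : ℝ)
      ≤ ∑ _q ∈ n.primeFactors.filter (fun q : ℕ => ¬ (q : ℝ) ≤ t), 1 / t := by
        apply sum_le_sum
        intro q hq
        have h1 := (mem_filter.1 hq).2
        push Not at h1
        exact one_div_le_one_div_of_le ht0 h1.le
    _ = ((n.primeFactors.filter (fun q : ℕ => ¬ (q : ℝ) ≤ t)).card : ℝ) * (1 / t) := by
        rw [sum_const, nsmul_eq_mul]
    _ ≤ M * (1 / t) := by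
        apply mul_le_mul_of_nonneg_right _ (by positivity)
        refine le_trans ?_ h
        exact_mod_cast card_le_card (filter_subset _ _)
    _ = M / t := by ring

theorem st_ERR (hBND : ST_BND) : ST_ERR := by
  intro a b x t hc hx hL ht
  obtain ⟨h1, h2, h3, h4, h5⟩ := hBND a b x hc hx hL
  have ht0 : 0 < t := by linarith
  have ha : (0 : ℝ) < a := Nat.cast_pos.2 hc.sa.ne_zero.bot_lt
  have hb : (0 : ℝ) < b := Nat.cast_pos.2 hc.sb.ne_zero.bot_lt
  have e1 : (b : ℝ) = a * dl a := by rw [← D_cast, hc.ab]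
  have e2 : (a : ℝ) = b * dl b := by rw [← D_cast, hc.ba]
  have hAB : dl a * dl b = 1 := by
    have h6 : (b : ℝ) * (dl a * dl b) = b * 1 := by
      calc (b : ℝ) * (dl a * dl b) = (b * dl b) * dl a := by ring
        _ = a * dl a := by rw [← e2]
        _ = b * 1 := by rw [← e1, mul_one]
    exact mul_left_cancel₀ hb.ne' h6
  have hBpos : 0 < dl b := by
    rcases (dl_nonneg b).lt_or_eq with h | h
    · exact h
    · rw [← h, mul_zero] at hAB
      norm_num at hAB
  have sA := err_split t a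
  have sB := err_split t b
  have tA := err_tail t _ a ht h1
  have tB := err_tail t _ b ht h2
  have pA : 0 ≤ ∑ q ∈ a.primeFactors.filter (fun q : ℕ => ¬ (q : ℝ) ≤ t), 1 / (q : ℝ) :=
    sum_nonneg fun _ _ => by positivity
  have pB : 0 ≤ ∑ q ∈ b.primeFactors.filter (fun q : ℕ => ¬ (q : ℝ) ≤ t), 1 / (q : ℝ) :=
    sum_nonneg fun _ _ => by positivity
  have nα := dl_nonneg (sp t a)
  have nβ := dl_nonneg (sp t b)
  set L := Real.log x
  set A := dl a
  set B := dl b
  set α := dl (sp t a) with hα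
  set β := dl (sp t b) with hβ
  set u := ∑ q ∈ a.primeFactors.filter (fun q : ℕ => ¬ (q : ℝ) ≤ t), 1 / (q : ℝ) with hu
  set v := ∑ q ∈ b.primeFactors.filter (fun q : ℕ => ¬ (q : ℝ) ≤ t), 1 / (q : ℝ) with hv
  have hL0 : 0 ≤ L := by linarith
  have hα' : α ≤ A := by linarith
  have hβ' : β ≤ B := by linarith
  have hle : α * β ≤ 1 := by
    rw [← hAB]
    exact mul_le_mul hα' hβ' nβ (nα.trans hα')
  refine ⟨?_, hle, ?_⟩
  · have i1 : u * B ≤ 2 * L / t * (2 * L) := mul_le_mul tA h4 hBpos.le (by positivity)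
    have i2 : α * v ≤ L * (3 * L / t) := mul_le_mul (hα'.trans h3) tB pB hL0
    have i3 : 1 - α * β = u * B + α * v := by
      rw [← hAB, sA, sB]
      ring
    have i4 : 2 * L / t * (2 * L) + L * (3 * L / t) = 7 * L ^ 2 / t := by
      field_simp
      ring
    have i5 : 7 * L ^ 2 / t ≤ 8 * L ^ 2 / t := by
      apply div_le_div_of_nonneg_right _ ht0.le
      nlinarith [sq_nonneg L]
    linarith
  · rintro ⟨p, hp, hpa, htp⟩
    have hup : 0 < u := by
      have hmem : p ∈ a.primeFactors.filter (fun q : ℕ => ¬ (q : ℝ) ≤ t) :=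
        mem_filter.2 ⟨Nat.mem_primeFactors.2 ⟨hp, hpa, hc.sa.ne_zero⟩, not_le.2 htp⟩
      have h7 : 1 / (p : ℝ) ≤ u := by
        rw [hu]
        exact single_le_sum (f := fun q : ℕ => 1 / (q : ℝ)) (fun i _ => by positivity) hmem
      have h8 : (0 : ℝ) < 1 / (p : ℝ) := by
        have : (0 : ℝ) < p := Nat.cast_pos.2 hp.pos
        positivity
      linarith
    have hlt : α * β < 1 := by
      rw [← hAB]
      have h9 : α < A := by linarith
      calc α * β ≤ α * B := mul_le_mul_of_nonneg_left hβ' nα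
        _ < A * B := mul_lt_mul_of_pos_right h9 hBpos
    have hs1 : (0 : ℝ) < sp t a := Nat.cast_pos.2 (sp_pos t a)
    have hs2 : (0 : ℝ) < sp t b := Nat.cast_pos.2 (sp_pos t b)
    have hs : (0 : ℝ) < (sp t a : ℝ) * sp t b := mul_pos hs1 hs2
    have e3 : ((D (sp t a) * D (sp t b) : ℕ) : ℝ) = ((sp t a : ℝ) * sp t b) * (α * β) := by
      push_cast
      rw [D_cast, D_cast]
      ring
    have e4 : ((D (sp t a) * D (sp t b) : ℕ) : ℝ) < ((sp t a * sp t b : ℕ) : ℝ) := by
      rw [e3]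
      push_cast
      calc ((sp t a : ℝ) * sp t b) * (α * β) < ((sp t a : ℝ) * sp t b) * 1 :=
            mul_lt_mul_of_pos_left hlt hs
        _ = _ := mul_one _
    have e5 : D (sp t a) * D (sp t b) + 1 ≤ sp t a * sp t b := by exact_mod_cast e4
    have e6 : ((D (sp t a) * D (sp t b) : ℕ) : ℝ) + 1 ≤ (sp t a : ℝ) * sp t b := by
      exact_mod_cast e5
    rw [e3] at e6
    have e7 : ((sp t a : ℝ) * sp t b) * (1 - 1 / ((sp t a : ℝ) * sp t b)) =
        (sp t a : ℝ) * sp t b - 1 := by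
      field_simp
    have e8 : ((sp t a : ℝ) * sp t b) * (α * β) ≤
        ((sp t a : ℝ) * sp t b) * (1 - 1 / ((sp t a : ℝ) * sp t b)) := by
      rw [e7]
      linarith
    exact le_of_mul_le_mul_left e8 hs

end Pool.Agent.Helper44.BB
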